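import Pool.Agent.Lib.MP_8cdcda_al.Exist
import Pool.Agent.Lib.MP_8cdcda_al.F4

/-!
The conjecture on distinguished involutions and shortest elements of left cells fails in the
affine Weyl group of type affine F4.
-/

namespace Pool.Agent.Results.MP_8cdcda_al.ShiFailsF4

open Pool.Agent.Lib.MP_8cdcda_al

/-- For the affine Weyl group of type affine F4, the Hecke algebra with its bar involution and
Kazhdan-Lusztig basis exists, and in it (i) or (ii) fails: some shortest element `x` of its left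
cell has `λ(x⁻¹,x) ∉ D₀`, or some `d ∈ D₀` and some shortest element `x` of the left cell of `d`
have `λ(x⁻¹,x) ≠ d`. -/
theorem result :
    (∃ (H : Type) (_ : Ring H) (_ : Algebra A H),
      Nonempty (HeckeKL affineF4.toCoxeterSystem H)) ∧
    ∀ (H : Type) [Ring H] [Algebra A H] (D : HeckeKL affineF4.toCoxeterSystem H),
      (∃ x w : affineF4.Group, D.Shortest x ∧ D.IsLambda x⁻¹ x w ∧ w ∉ D.D0) ∨
      (∃ d x w : affineF4.Group, d ∈ D.D0 ∧ D.LeftEquiv x d ∧ D.Shortest x ∧
        D.IsLambda x⁻¹ x w ∧ w ≠ d) := by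
  refine ⟨exists_heckeKL _, fun H _ _ D => ?_⟩
  obtain ⟨x, d, hx, hd, h1, h2⟩ := counterexample D
  by_cases h : d ∈ D.D0
  · obtain ⟨ω, hω, e⟩ := affineF4.toCoxeterSystem.exists_isReduced d⁻¹
    have h3 := D.isLambda_dem hω d
    rw [← e] at h3
    refine Or.inr ⟨d, d, _, h, ⟨Relation.ReflTransGen.refl, Relation.ReflTransGen.refl⟩, hd, h3, ?_⟩
    intro h4
    rw [h4] at h3
    exact h2 h3
  · exact Or.inl ⟨x, d, hx, h1, h⟩

end Pool.Agent.Results.MP_8cdcda_al.ShiFailsF4
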